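import Mathlib

set_option autoImplicit false

/-! Free subsets of a group, exchange lemma, and a Schreier basis containing given letters. -/

namespace Pool.Agent.Lib.MP_e3e9dd_al

open Subgroup

variable {G : Type} [Group G]

/-- The subgroup generated by the graph of `f` over `E`. -/
def gr {H : Type} [Group H] (E : Set G) (f : G → H) : Subgroup (G × H) :=
  closure ((fun e => (e, f e)) '' E)

/-- `E` is a free subset of `G`. -/
def IsFreeSet (E : Set G) : Prop :=
  ∀ (H : Type) [Group H] (f : G → H) (y : H), ((1 : G), y) ∈ gr E f → y = 1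

theorem mem_gr {H : Type} [Group H] {E : Set G} (f : G → H) {e : G} (he : e ∈ E) :
    (e, f e) ∈ gr E f := subset_closure ⟨e, he, rfl⟩

theorem gr_mono {H : Type} [Group H] {E E' : Set G} (f : G → H) (h : E ⊆ E') :
    gr E f ≤ gr E' f := closure_mono (Set.image_mono h)

theorem exists_mem_gr {H : Type} [Group H] {E : Set G} (f : G → H) {g : G}
    (hg : g ∈ closure E) : ∃ y, (g, y) ∈ gr E f := by
  induction hg using closure_induction with
  | mem x hx => exact ⟨f x, mem_gr f hx⟩
  | one => exact ⟨1, one_mem _⟩
  | mul x y _ _ hx hy =>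
    obtain ⟨a, ha⟩ := hx
    obtain ⟨b, hb⟩ := hy
    exact ⟨a * b, mul_mem ha hb⟩
  | inv x _ hx =>
    obtain ⟨a, ha⟩ := hx
    exact ⟨a⁻¹, inv_mem ha⟩

theorem IsFreeSet.unique {E : Set G} (hE : IsFreeSet E) {H : Type} [Group H] {f : G → H}
    {g : G} {y y' : H} (h : (g, y) ∈ gr E f) (h' : (g, y') ∈ gr E f) : y = y' := by
  have := mul_mem h (inv_mem h')
  have h2 : ((1 : G), y * y'⁻¹) ∈ gr E f := by simpa using this
  exact mul_inv_eq_one.mp (hE H f _ h2)

theorem IsFreeSet.exchange {E E' U : Set G} (hE : IsFreeSet E) (hE' : IsFreeSet E')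
    (hU : U ⊆ E') (hcl : closure E = closure U) : IsFreeSet (E ∪ (E' \ U)) := by
  classical
  intro H _ f y hy
  have hex : ∀ u, u ∈ U → ∃ y, (u, y) ∈ gr E f := fun u hu =>
    exists_mem_gr f (hcl ▸ subset_closure hu)
  choose! yu hyu using hex
  let f' : G → H := fun g => if g ∈ U then yu g else f g
  have h1 : gr U f' ≤ gr E f := by
    refine (closure_le _).2 ?_
    rintro _ ⟨u, hu, rfl⟩
    simp only [f', if_pos hu]
    exact hyu u hu
  have h2 : gr (E ∪ (E' \ U)) f ≤ gr E' f' := by
    refine (closure_le _).2 ?_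
    rintro _ ⟨e, he, rfl⟩
    rcases he with he | ⟨he, heU⟩
    · obtain ⟨y, hy⟩ := exists_mem_gr f' (hcl ▸ subset_closure he : e ∈ closure U)
      have : y = f e := hE.unique (h1 hy) (mem_gr f he)
      subst this
      exact gr_mono f' hU hy
    · have : f e = f' e := by simp [f', heU]
      simp only [this]
      exact mem_gr f' he
  exact hE' H f' y (h2 hy)

theorem closure_exchange {E E' U : Set G} (hU : U ⊆ E') (hcl : closure E = closure U) :
    closure (E ∪ (E' \ U)) = closure E' := by
  rw [Subgroup.closure_union, hcl, ← Subgroup.closure_union, Set.union_sdiff_cancel hU]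

theorem IsFreeSet.image {E : Set G} (hE : IsFreeSet E) (φ : G ≃* G) : IsFreeSet (φ '' E) := by
  intro H _ f y hy
  apply hE H (f ∘ φ) y
  have : gr (φ '' E) f ≤ (gr E (f ∘ φ)).comap
      ((φ.symm : G →* G).prodMap (MonoidHom.id H)) := by
    refine (closure_le _).2 ?_
    rintro _ ⟨_, ⟨e, he, rfl⟩, rfl⟩
    simpa using mem_gr (f ∘ φ) he
  simpa using this hy

theorem isFreeSet_empty : IsFreeSet (∅ : Set G) := by
  intro H _ f y hy
  simpa [gr] using hy

theorem isFreeSet_iUnion {ι : Type} (E : ι → Set G) (hd : Directed (· ⊆ ·) E)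
    (hE : ∀ i, IsFreeSet (E i)) : IsFreeSet (⋃ i, E i) := by
  rcases isEmpty_or_nonempty ι with hι | hι
  · simpa using isFreeSet_empty
  intro H _ f y hy
  have : gr (⋃ i, E i) f = ⨆ i, gr (E i) f := by
    simp only [gr, Set.image_iUnion, Subgroup.closure_iUnion]
  rw [this, mem_iSup_of_directed] at hy
  · obtain ⟨i, hi⟩ := hy
    exact hE i H f y hi
  · intro i j
    obtain ⟨k, hik, hjk⟩ := hd i j
    exact ⟨k, gr_mono f hik, gr_mono f hjk⟩

theorem IsFreeSet.lift_injective {E : Set G} (hE : IsFreeSet E) :
    Function.Injective (FreeGroup.lift (fun e : E => (e : G))) := by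
  classical
  rw [injective_iff_map_eq_one]
  intro w hw
  let f : G → FreeGroup E := fun g => if h : g ∈ E then FreeGroup.of ⟨g, h⟩ else 1
  have key : ∀ w : FreeGroup E, (FreeGroup.lift (fun e : E => (e : G)) w, w) ∈ gr E f := by
    intro w
    induction w using FreeGroup.induction_on with
    | C1 => rw [map_one]; exact one_mem _
    | of x =>
      have := mem_gr f x.2
      simpa [f, x.2] using this
    | inv_of x hx => simpa using inv_mem hx
    | mul x y hx hy => simpa using mul_mem hx hy
  have := key w
  rw [hw] at this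
  exact hE _ f w this

section Schreier

variable {X : Type}

/-- A signed letter as an element of the free group. -/
def lt (p : X × Bool) : FreeGroup X := cond p.2 (FreeGroup.of p.1) (FreeGroup.of p.1)⁻¹

theorem exists_word (g : FreeGroup X) : ∃ l : List (X × Bool), (l.map lt).prod = g := by
  induction g using FreeGroup.induction_on with
  | C1 => exact ⟨[], by simp⟩
  | of x => exact ⟨[(x, true)], by simp [lt]⟩
  | inv_of x _ => exact ⟨[(x, false)], by simp [lt]⟩
  | mul x y hx hy =>
    obtain ⟨a, ha⟩ := hx
    obtain ⟨b, hb⟩ := hy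
    exact ⟨a ++ b, by simp [ha, hb]⟩

/-- A Schreier transversal for a pointed transitive action of a free group. -/
theorem exists_transversal {Q : Type} [MulAction (FreeGroup X) Q] (q0 : Q)
    (htr : ∀ q, ∃ g : FreeGroup X, g • q0 = q) :
    ∃ (t : Q → FreeGroup X) (d : Q → ℕ), t q0 = 1 ∧ (∀ q, t q • q0 = q) ∧
      ∀ q, q ≠ q0 → ∃ p q', d q' < d q ∧ q = lt p • q' ∧ t q = lt p * t q' := by
  classical
  have hex : ∀ q, ∃ n, ∃ l : List (X × Bool), l.length = n ∧ (l.map lt).prod • q0 = q := by
    intro q
    obtain ⟨g, hg⟩ := htr q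
    obtain ⟨l, hl⟩ := exists_word g
    exact ⟨_, l, rfl, hl ▸ hg⟩
  let d : Q → ℕ := fun q => Nat.find (hex q)
  have hstep : ∀ q, q ≠ q0 → ∃ pq : (X × Bool) × Q, d pq.2 < d q ∧ q = lt pq.1 • pq.2 := by
    intro q hq
    obtain ⟨l, hl, hlq⟩ := Nat.find_spec (hex q)
    cases l with
    | nil => exact absurd (by simpa using hlq.symm) hq
    | cons p l =>
      refine ⟨(p, (l.map lt).prod • q0), ?_, ?_⟩
      · have h1 : d ((l.map lt).prod • q0) ≤ l.length := Nat.find_min' _ ⟨l, rfl, rfl⟩
        have h2 : d q = l.length + 1 := by simpa using hl.symm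
        simp only
        omega
      · simp [← hlq, mul_smul]
  choose pq hpq using hstep
  let t : Q → FreeGroup X := (measure d).wf.fix (fun q ih =>
    if h : q = q0 then 1 else lt (pq q h).1 * ih (pq q h).2 (hpq q h).1)
  have ht : ∀ q, t q = if h : q = q0 then 1 else lt (pq q h).1 * t (pq q h).2 := by
    intro q
    simp only [t]
    rw [WellFounded.fix_eq]
  refine ⟨t, d, by rw [ht]; simp, ?_, ?_⟩
  · intro q
    induction q using (measure d).wf.induction with
    | _ q ih =>
      rw [ht]
      split_ifs with h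
      · simp [h]
      · rw [mul_smul, ih _ (hpq q h).1]
        exact (hpq q h).2.symm
  · intro q hq
    refine ⟨(pq q hq).1, (pq q hq).2, (hpq q hq).1, (hpq q hq).2, ?_⟩
    rw [ht, dif_neg hq]

/-- Every subgroup of a free group has a free generating set containing the letters it contains. -/
theorem schreier (L : Subgroup (FreeGroup X)) :
    ∃ E : Set (FreeGroup X), IsFreeSet E ∧ closure E = L ∧
      ∀ x, FreeGroup.of x ∈ L → FreeGroup.of x ∈ E := by
  classical
  let q0 : FreeGroup X ⧸ L := ((1 : FreeGroup X) : FreeGroup X ⧸ L)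
  have hstab : ∀ g : FreeGroup X, g • q0 = q0 ↔ g ∈ L := by
    intro g
    simp only [q0, MulAction.Quotient.smul_mk, smul_eq_mul, mul_one]
    rw [eq_comm, QuotientGroup.eq]
    simp
  have htr : ∀ q : FreeGroup X ⧸ L, ∃ g : FreeGroup X, g • q0 = q := by
    intro q
    obtain ⟨g, rfl⟩ := QuotientGroup.mk_surjective q
    exact ⟨g, by simp [q0]⟩
  obtain ⟨t, d, ht0, htq, hstep⟩ := exists_transversal q0 htr
  let s : (FreeGroup X ⧸ L) → FreeGroup X → FreeGroup X := fun q g => (t (g • q))⁻¹ * g * t q
  let E : Set (FreeGroup X) := {e | e ≠ 1 ∧ ∃ q x, e = s q (FreeGroup.of x)}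
  refine ⟨E, ?_, ?_, ?_⟩
  · intro H _ f y hy
    let c : (FreeGroup X ⧸ L) → X → H := fun q x =>
      if s q (FreeGroup.of x) = 1 then 1 else f (s q (FreeGroup.of x))
    let a : X → Equiv.Perm ((FreeGroup X ⧸ L) × H) := fun x =>
      { toFun := fun z => (FreeGroup.of x • z.1, c z.1 x * z.2)
        invFun := fun z => ((FreeGroup.of x)⁻¹ • z.1, (c ((FreeGroup.of x)⁻¹ • z.1) x)⁻¹ * z.2)
        left_inv := fun z => by simp
        right_inv := fun z => by simp }
    let ρ : FreeGroup X →* Equiv.Perm ((FreeGroup X ⧸ L) × H) := FreeGroup.lift a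
    have hρ : ∀ x z, ρ (FreeGroup.of x) z = (FreeGroup.of x • z.1, c z.1 x * z.2) := by
      intro x z
      simp [ρ, a]
    have hρ' : ∀ x z, ρ (FreeGroup.of x)⁻¹ z =
        ((FreeGroup.of x)⁻¹ • z.1, (c ((FreeGroup.of x)⁻¹ • z.1) x)⁻¹ * z.2) := by
      intro x z
      rw [map_inv]
      simp [ρ, a, Equiv.Perm.inv_def]
    have htree : ∀ q h, ρ (t q) (q0, h) = (q, h) := by
      intro q
      induction q using (measure d).wf.induction with
      | _ q ih =>
        intro h
        by_cases hq : q = q0
        · subst hq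
          simp [ht0]
        · obtain ⟨⟨x, b⟩, q', hd, hqq, htt⟩ := hstep q hq
          rw [htt, map_mul, Equiv.Perm.mul_apply, ih q' hd]
          cases b
          · simp only [lt, cond_false] at hqq htt ⊢
            rw [hρ']
            simp only [← hqq]
            have h1 : FreeGroup.of x • q = q' := by rw [hqq]; simp
            have : s q (FreeGroup.of x) = 1 := by
              simp only [s, h1, htt]
              group
            simp [c, this]
          · simp only [lt, cond_true] at hqq htt ⊢
            rw [hρ]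
            simp only [← hqq]
            have : s q' (FreeGroup.of x) = 1 := by
              simp only [s, ← hqq, htt]
              group
            simp [c, this]
    let S : Subgroup (FreeGroup X × H) :=
      { carrier := {z | ∀ h, ρ z.1 (q0, h) = (q0, z.2 * h)}
        one_mem' := by intro h; simp
        mul_mem' := by
          intro u v hu hv h
          simp only [Prod.fst_mul, map_mul, Equiv.Perm.mul_apply, Prod.snd_mul]
          rw [hv, hu, mul_assoc]
        inv_mem' := by
          intro u hu h
          simp only [Prod.fst_inv, map_inv, Prod.snd_inv]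
          rw [Equiv.Perm.inv_eq_iff_eq, hu]
          simp }
    have hle : gr E f ≤ S := by
      refine (closure_le _).2 ?_
      rintro _ ⟨e, ⟨he1, q, x, rfl⟩, rfl⟩ h
      simp only [s, map_mul, map_inv, Equiv.Perm.mul_apply]
      rw [htree, hρ, Equiv.Perm.inv_eq_iff_eq, htree]
      simp only [c, if_neg he1]
      rfl
    have := hle hy 1
    simpa using this.symm
  · apply le_antisymm
    · refine (closure_le _).2 ?_
      rintro _ ⟨_, q, x, rfl⟩
      simp only [SetLike.mem_coe]
      rw [← hstab]
      simp only [s, mul_smul, htq]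
      rw [inv_smul_eq_iff, htq]
    · have key : ∀ g : FreeGroup X, ∀ q, s q g ∈ closure E := by
        intro g
        induction g using FreeGroup.induction_on with
        | C1 => intro q; simp [s]
        | of x =>
          intro q
          by_cases h : s q (FreeGroup.of x) = 1
          · rw [h]; exact one_mem _
          · exact subset_closure ⟨h, q, x, rfl⟩
        | inv_of x hx =>
          intro q
          have := inv_mem (hx ((FreeGroup.of x)⁻¹ • q))
          simpa [s, mul_assoc] using this
        | mul x y hx hy =>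
          intro q
          have := mul_mem (hx (y • q)) (hy q)
          simpa [s, mul_assoc, mul_smul] using this
      intro g hg
      have := key g q0
      simpa [s, (hstab g).2 hg, ht0] using this
  · intro x hx
    refine ⟨FreeGroup.of_ne_one x, q0, x, ?_⟩
    simp [s, (hstab _).2 hx, ht0]

end Schreier

end Pool.Agent.Lib.MP_e3e9dd_al
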