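import Mathlib

set_option autoImplicit false

/-! An automorphism fixing many letters is a commutator with a shift of the basis. -/

namespace Pool.Agent.Lib.MP_e3e9dd_al

open Filter

variable {X : Type}

/-- The automorphism of the free group induced by a permutation of the basis. -/
def permAut : Equiv.Perm X →* MulAut (FreeGroup X) where
  toFun π := FreeGroup.freeGroupCongr π
  map_one' := by
    apply MulEquiv.toMonoidHom_injective
    ext x
    simp
  map_mul' π π' := by
    apply MulEquiv.toMonoidHom_injective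
    ext x
    simp

@[simp] theorem permAut_of (π : Equiv.Perm X) (x : X) :
    permAut π (FreeGroup.of x) = FreeGroup.of (π x) := by
  simp [permAut]

/-- Shift of the integer coordinate. -/
def shift {T : Type} (e : T × ℤ ≃ X) (c : ℤ) : Equiv.Perm X :=
  e.symm.trans ((Equiv.prodCongr (Equiv.refl T) (Equiv.addRight c)).trans e)

/-- Reflection of the integer coordinate. -/
def flip {T : Type} (e : T × ℤ ≃ X) : Equiv.Perm X :=
  e.symm.trans ((Equiv.prodCongr (Equiv.refl T) (Equiv.neg ℤ)).trans e)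

@[simp] theorem shift_apply {T : Type} (e : T × ℤ ≃ X) (c : ℤ) (t : T) (j : ℤ) :
    shift e c (e (t, j)) = e (t, j + c) := by simp [shift]

@[simp] theorem flip_apply {T : Type} (e : T × ℤ ≃ X) (t : T) (j : ℤ) :
    flip e (e (t, j)) = e (t, -j) := by simp [flip]

theorem shift_inv {T : Type} (e : T × ℤ ≃ X) (c : ℤ) : (shift e c)⁻¹ = shift e (-c) := by
  rw [inv_eq_iff_mul_eq_one]
  ext x
  obtain ⟨⟨t, j⟩, rfl⟩ := e.surjective x
  simp

theorem shift_pow {T : Type} (e : T × ℤ ≃ X) (c : ℤ) (n : ℕ) :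
    (shift e c) ^ n = shift e (n * c) := by
  induction n with
  | zero =>
    ext x
    obtain ⟨⟨t, j⟩, rfl⟩ := e.surjective x
    simp
  | succ n ih =>
    rw [pow_succ, ih]
    ext x
    obtain ⟨⟨t, j⟩, rfl⟩ := e.surjective x
    simp only [Equiv.Perm.mul_apply, shift_apply]
    congr 2
    push_cast
    ring

theorem flip_mul_flip {T : Type} (e : T × ℤ ≃ X) : flip e * flip e = 1 := by
  ext x
  obtain ⟨⟨t, j⟩, rfl⟩ := e.surjective x
  simp

theorem flip_conj {T : Type} (e e' : T × ℤ ≃ X) :
    ∃ c : Equiv.Perm X, flip e' = c * flip e * c⁻¹ := by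
  refine ⟨e.symm.trans e', ?_⟩
  ext x
  obtain ⟨⟨t, j⟩, rfl⟩ := e'.surjective x
  simp [Equiv.Perm.inv_def]

theorem shift_two {T : Type} (e : T × ℤ ≃ X) :
    shift e 2 = (shift e 1 * flip e * (shift e 1)⁻¹) * flip e := by
  rw [shift_inv]
  ext x
  obtain ⟨⟨t, j⟩, rfl⟩ := e.surjective x
  simp only [Equiv.Perm.mul_apply, shift_apply, flip_apply]
  congr 2
  ring

theorem shift_mem {T : Type} (e0 e : T × ℤ ≃ X) (N : Subgroup (MulAut (FreeGroup X))) [hN : N.Normal]
    (h : permAut (flip e0) ∈ N) : permAut (shift e 2) ∈ N := by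
  obtain ⟨c, hc⟩ := flip_conj e0 e
  have h1 : permAut (flip e) ∈ N := by
    rw [hc, map_mul, map_mul, map_inv]
    exact hN.conj_mem _ h _
  rw [shift_two, map_mul, map_mul, map_mul, map_inv]
  exact N.mul_mem (hN.conj_mem _ h1 _) h1

/-- The wave operator argument. -/
theorem exists_conj {T : Type} (e : T × ℤ ≃ X) (φ : MulAut (FreeGroup X))
    (hfix : ∀ t j, j ≠ 0 → φ (FreeGroup.of (e (t, j))) = FreeGroup.of (e (t, j)))
    (r : T → T → Prop) (hr : WellFounded r)
    (hsupp : ∀ t, φ⁻¹ (FreeGroup.of (e (t, 0))) ∈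
      Subgroup.closure {g | ∃ t' j, (j ≤ 0 ∨ r t' t) ∧ g = FreeGroup.of (e (t', j))}) :
    ∃ Φ : MulAut (FreeGroup X), Φ * permAut (shift e 2) = φ * permAut (shift e 2) * Φ := by
  set μ : MulAut (FreeGroup X) := permAut (shift e 2) with hμ
  set θ : MulAut (FreeGroup X) := φ * μ with hθ
  have hμn : ∀ (n : ℕ) t j, (μ⁻¹ ^ n) (FreeGroup.of (e (t, j))) =
      FreeGroup.of (e (t, j - 2 * n)) := by
    intro n t j
    rw [hμ, ← map_inv, ← map_pow, shift_inv, shift_pow, permAut_of, shift_apply]
    congr 3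
    ring
  have hθ1 : ∀ t j, j ≠ 0 → θ (FreeGroup.of (e (t, j - 2))) = FreeGroup.of (e (t, j)) := by
    intro t j hj
    rw [hθ, MulAut.mul_apply, hμ, permAut_of, shift_apply, sub_add_cancel, hfix t j hj]
  let v : T → ℤ → ℕ → FreeGroup X := fun t j n => (θ ^ n) (FreeGroup.of (e (t, j - 2 * n)))
  have hv : ∀ t (j : ℤ) (n : ℕ), j - 2 * n ≠ 0 → v t j (n + 1) = v t j n := by
    intro t j n h
    simp only [v]
    rw [pow_succ, MulAut.mul_apply, ← hθ1 t _ h]
    have : j - 2 * ((n + 1 : ℕ) : ℤ) = j - 2 * n - 2 := by push_cast; ring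
    rw [this]
  have hv' : ∀ t j (n : ℕ), j.toNat + 1 ≤ n → v t j n = v t j (j.toNat + 1) := by
    intro t j n hn
    induction n, hn using Nat.le_induction with
    | base => rfl
    | succ n hn ih =>
      rw [hv t j n (by omega), ih]
  let Φ : FreeGroup X →* FreeGroup X :=
    FreeGroup.lift (fun x => v (e.symm x).1 (e.symm x).2 ((e.symm x).2.toNat + 1))
  have hΦ : ∀ t j, Φ (FreeGroup.of (e (t, j))) = v t j (j.toNat + 1) := by
    intro t j
    simp [Φ]
  have hev : ∀ g, ∀ᶠ n in atTop, Φ g = (θ ^ n) ((μ⁻¹ ^ n) g) := by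
    intro g
    induction g using FreeGroup.induction_on with
    | C1 => simp
    | of x =>
      obtain ⟨⟨t, j⟩, rfl⟩ := e.surjective x
      filter_upwards [eventually_ge_atTop (j.toNat + 1)] with n hn
      rw [hΦ, hμn, ← hv' t j n hn]
    | inv_of x hx =>
      filter_upwards [hx] with n hn
      rw [map_inv, hn, map_inv, map_inv]
    | mul x y hx hy =>
      filter_upwards [hx, hy] with n hn hn'
      rw [map_mul, hn, hn', map_mul, map_mul]
  have hinj : Function.Injective Φ := by
    rw [injective_iff_map_eq_one]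
    intro g hg
    obtain ⟨n, hn⟩ := (hev g).exists
    rw [hg] at hn
    simpa using hn.symm
  have hcomm : ∀ g, Φ (μ g) = θ (Φ g) := by
    intro g
    have h1 := (tendsto_add_atTop_nat 1).eventually (hev (μ g))
    obtain ⟨n, hn, hn'⟩ := (h1.and (hev g)).exists
    rw [hn, hn', pow_succ' θ, pow_succ μ⁻¹, MulAut.mul_apply _ θ, MulAut.mul_apply _ (μ⁻¹ ^ n),
      MulAut.inv_apply_self]
  have hθI : ∀ g ∈ Φ.range, θ g ∈ Φ.range := by
    rintro _ ⟨g, rfl⟩
    exact ⟨μ g, hcomm g⟩
  have hneg : ∀ t j, j < 0 → FreeGroup.of (e (t, j)) ∈ Φ.range := by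
    intro t j hj
    refine ⟨FreeGroup.of (e (t, j)), ?_⟩
    rw [hΦ]
    have : j.toNat = 0 := by omega
    rw [this, hv t j 0 (by omega)]
    simp [v]
  have hall : ∀ t j, FreeGroup.of (e (t, j)) ∈ Φ.range := by
    intro t
    induction t using hr.induction with
    | _ t ih =>
      have h0 : FreeGroup.of (e (t, 0)) ∈ Φ.range := by
        have h1 : μ⁻¹ (φ⁻¹ (FreeGroup.of (e (t, 0)))) ∈ Φ.range := by
          have : Subgroup.closure {g | ∃ t' j, (j ≤ 0 ∨ r t' t) ∧ g = FreeGroup.of (e (t', j))} ≤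
              Φ.range.comap (μ⁻¹ : MulAut (FreeGroup X)).toMonoidHom := by
            refine (Subgroup.closure_le _).2 ?_
            rintro _ ⟨t', j, hj, rfl⟩
            have h2 := hμn 1 t' j
            rw [pow_one] at h2
            show μ⁻¹ (FreeGroup.of (e (t', j))) ∈ Φ.range
            rw [h2]
            rcases hj with hj | hj
            · exact hneg _ _ (by omega)
            · exact ih t' hj _
          exact this (hsupp t)
        have h2 := hθI _ h1
        simpa [hθ] using h2
      have hnat : ∀ n : ℕ, ∀ j : ℤ, j < n → FreeGroup.of (e (t, j)) ∈ Φ.range := by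
        intro n
        induction n with
        | zero => intro j hj; exact hneg t j (by simpa using hj)
        | succ n ihn =>
          intro j hj
          by_cases hj0 : j = 0
          · rw [hj0]; exact h0
          · rw [← hθ1 t j hj0]
            exact hθI _ (ihn _ (by omega))
      intro j
      exact hnat (j.toNat + 1) j (by omega)
  have hsurj : Function.Surjective Φ := by
    rw [← MonoidHom.range_eq_top, eq_top_iff, ← FreeGroup.closure_range_of,
      Subgroup.closure_le]
    rintro _ ⟨x, rfl⟩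
    obtain ⟨⟨t, j⟩, rfl⟩ := e.surjective x
    exact hall t j
  refine ⟨MulEquiv.ofBijective Φ ⟨hinj, hsurj⟩, ?_⟩
  ext g
  simp only [MulAut.mul_apply, MulEquiv.ofBijective_apply]
  rw [hcomm g]

end Pool.Agent.Lib.MP_e3e9dd_al
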