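import Mathlib
import Pool.Agent.Lib.MP_e3e9dd_al.Swindle

set_option autoImplicit false

/-! Pointwise stabilizers of large sets of letters lie in the normal closure of the flip. -/

namespace Pool.Agent.Lib.MP_e3e9dd_al

open Cardinal Set

variable {X : Type}

/-- The subgroup generated by a set of letters. -/
def gen (U : Set X) : Subgroup (FreeGroup X) := Subgroup.closure (FreeGroup.of '' U)

theorem gen_mono {U V : Set X} (h : U ⊆ V) : gen U ≤ gen V :=
  Subgroup.closure_mono (Set.image_mono h)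

theorem of_mem_gen {U : Set X} {x : X} (h : x ∈ U) : FreeGroup.of x ∈ gen U :=
  Subgroup.subset_closure ⟨x, h, rfl⟩

theorem exists_supp (g : FreeGroup X) : ∃ A : Set X, A.Finite ∧ g ∈ gen A := by
  induction g using FreeGroup.induction_on with
  | C1 => exact ⟨∅, finite_empty, one_mem _⟩
  | of x => exact ⟨{x}, finite_singleton x, of_mem_gen rfl⟩
  | inv_of x hx =>
    obtain ⟨A, hA, h⟩ := hx
    exact ⟨A, hA, inv_mem h⟩
  | mul x y hx hy =>
    obtain ⟨A, hA, h⟩ := hx
    obtain ⟨B, hB, h'⟩ := hy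
    exact ⟨A ∪ B, hA.union hB,
      mul_mem (gen_mono subset_union_left h) (gen_mono subset_union_right h')⟩

/-- A finite set of letters supporting an element. -/
noncomputable def supp (g : FreeGroup X) : Set X := (exists_supp g).choose

theorem supp_finite (g : FreeGroup X) : (supp g).Finite := (exists_supp g).choose_spec.1

theorem mem_gen_supp (g : FreeGroup X) : g ∈ gen (supp g) := (exists_supp g).choose_spec.2

theorem mem_of_of_mem_gen {U : Set X} {x : X} (h : FreeGroup.of x ∈ gen U) : x ∈ U := by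
  classical
  by_contra hx
  let f : FreeGroup X →* FreeGroup X :=
    FreeGroup.lift (fun y => if y ∈ U then 1 else FreeGroup.of y)
  have : gen U ≤ f.ker := by
    refine (Subgroup.closure_le _).2 ?_
    rintro _ ⟨y, hy, rfl⟩
    simp [f, hy]
  have h2 := this h
  simp [f, hx] at h2

theorem gen_univ : gen (univ : Set X) = ⊤ := by
  rw [gen, image_univ, FreeGroup.closure_range_of]

theorem exists_order (X : Type) [Infinite X] :
    ∃ (_ : LinearOrder X) (_ : WellFoundedLT X) (c : X → Cardinal.{0}),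
      (∀ x, (c x).IsRegular) ∧ (∀ x, Cardinal.mk (Iio x) < c x) ∧ (∀ x, c x ≤ Cardinal.mk X) ∧
        Monotone c := by
  obtain ⟨lo, wf, h⟩ := Cardinal.exists_ord_eq_type_lt X
  refine ⟨lo, wf, fun x => max ℵ₀ (Order.succ (Cardinal.mk (Iio x))), ?_, ?_, ?_, ?_⟩
  · intro x
    dsimp only
    rcases lt_or_ge (Cardinal.mk (Iio x)) ℵ₀ with h1 | h1
    · rw [max_eq_left (Order.succ_le_of_lt h1)]
      exact isRegular_aleph0
    · rw [max_eq_right (h1.trans (Order.le_succ _))]
      exact isRegular_succ h1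
  · intro x
    exact (Order.lt_succ _).trans_le (le_max_right _ _)
  · intro x
    exact max_le (aleph0_le_mk X) (Order.succ_le_of_lt (Cardinal.mk_Iio_lt x h))
  · intro x y hxy
    exact max_le_max le_rfl (Order.succ_le_succ (mk_le_mk_of_subset (Iio_subset_Iio hxy)))

theorem small_of_finite {α : Type} {c : Cardinal.{0}} (hc : c.IsRegular) {A : Set α}
    (hA : A.Finite) : Cardinal.mk A < c :=
  hA.lt_aleph0.trans_le hc.aleph0_le

theorem small_union {α : Type} {c : Cardinal.{0}} (hc : c.IsRegular) {A B : Set α}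
    (hA : Cardinal.mk A < c) (hB : Cardinal.mk B < c) : Cardinal.mk (A ∪ B : Set α) < c :=
  (mk_union_le A B).trans_lt (add_lt_of_lt hc.aleph0_le hA hB)

theorem small_biUnion {α β : Type} {c : Cardinal.{0}} (hc : c.IsRegular) {I : Set α}
    (hI : Cardinal.mk I < c) (A : α → Set β) (hA : ∀ i ∈ I, Cardinal.mk (A i) < c) :
    Cardinal.mk (⋃ i ∈ I, A i : Set β) < c :=
  (card_biUnion_lt_iff_forall_of_isRegular (t := fun i _ => A i) hc hI).2 hA

theorem exists_not_mem_of_small {α β : Type} {A : Set β} (hA : Cardinal.mk A < Cardinal.mk α)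
    (f : α → β) (hf : Function.Injective f) : ∃ a, f a ∉ A := by
  by_contra h
  push Not at h
  exact absurd (mk_le_of_injective (f := fun a => (⟨f a, h a⟩ : A))
    (fun a b hab => hf (by simpa using hab))) (not_le.2 hA)

theorem mk_eq_of_inj {α β : Type} {A : Set β} (hβ : Cardinal.mk β ≤ Cardinal.mk α)
    (f : α → β) (hf : Function.Injective f) (hA : ∀ a, f a ∈ A) :
    Cardinal.mk A = Cardinal.mk α :=
  le_antisymm ((mk_set_le A).trans hβ) (mk_le_of_injective (f := fun a => (⟨f a, hA a⟩ : A))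
    (fun a b hab => hf (by simpa using hab)))

theorem exists_equiv_extend {I α β : Type} (p : I → α) (q : I → β) (hp : Function.Injective p)
    (hq : Function.Injective q)
    (h : Cardinal.mk ((range p)ᶜ : Set α) = Cardinal.mk ((range q)ᶜ : Set β)) :
    ∃ γ : α ≃ β, ∀ i, γ (p i) = q i := by
  let f : (range p) ↪ β :=
    ⟨fun z => q ((Equiv.ofInjective p hp).symm z), hq.comp (Equiv.injective _)⟩
  have hr : range f = range q := by
    ext y
    constructor
    · rintro ⟨z, rfl⟩
      exact ⟨_, rfl⟩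
    · rintro ⟨i, rfl⟩
      exact ⟨⟨p i, i, rfl⟩, by simp [f]⟩
  obtain ⟨γ, hγ⟩ := Cardinal.extend_function f (by rw [hr]; exact Cardinal.eq.1 h)
  refine ⟨γ, fun i => ?_⟩
  have := hγ ⟨p i, i, rfl⟩
  simpa [f] using this

theorem stab_mem [Infinite X] (e0 : X × ℤ ≃ X) (N : Subgroup (MulAut (FreeGroup X)))
    [hN : N.Normal] (h0 : permAut (flip e0) ∈ N) (φ : MulAut (FreeGroup X)) (ζ : X → X)
    (hζ : Function.Injective ζ)
    (hfix : ∀ x, φ (FreeGroup.of (ζ x)) = FreeGroup.of (ζ x)) : φ ∈ N := by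
  classical
  obtain ⟨lo, wf, c, hreg, hlt, hle, -⟩ := exists_order X
  have hcard : Cardinal.mk (X × ℤ × X × Fin 3) = Cardinal.mk X := by
    have h1 : ℵ₀ ≤ Cardinal.mk X := aleph0_le_mk X
    simp only [mk_prod, lift_id, mk_int, mk_fin]
    rw [mul_eq_left h1 (natCast_lt_aleph0.le.trans h1) (by simp),
      mul_eq_right h1 h1 aleph0_ne_zero, mul_eq_self h1]
  obtain ⟨u0⟩ := Cardinal.eq.1 hcard
  let u : X × ℤ × X × Fin 3 → X := fun z => ζ (u0 z)
  have hu : Function.Injective u := hζ.comp u0.injective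
  let S : Set X := (u '' {z | z.2.2.2 ≠ 0})ᶜ
  have hS : Cardinal.mk S = Cardinal.mk X := by
    refine mk_eq_of_inj le_rfl (fun x => u (x, 0, x, 0)) (fun a b hab => by simpa using hu hab) ?_
    rintro a ⟨z, hz, hz'⟩
    rw [hu hz'] at hz
    exact hz rfl
  obtain ⟨β⟩ := Cardinal.eq.1 hS.symm
  let Bad : X → Set X := fun t => ⋃ t' ∈ Iic t, supp (φ⁻¹ (FreeGroup.of (β t' : X)))
  have hBad : ∀ t, Cardinal.mk (Bad t) < Cardinal.mk X := by
    intro t
    refine lt_of_lt_of_le ?_ (hle t)
    refine small_biUnion (hreg t) ?_ _ (fun i _ => small_of_finite (hreg t) (supp_finite _))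
    rw [← Iio_union_right]
    exact small_union (hreg t) (hlt t) (small_of_finite (hreg t) (finite_singleton t))
  have hb : ∀ t (j : ℤ), ∃ b, u (t, j, b, 1) ∉ Bad t := fun t j =>
    exists_not_mem_of_small (hBad t) (fun b => u (t, j, b, 1))
      (fun a b hab => by simpa using hu hab)
  choose b hb using hb
  let p : X × ℕ → X × ℤ := fun z => (z.1, (z.2 : ℤ))
  let q : X × ℕ → X := fun z => if z.2 = 0 then (β z.1 : X) else u (z.1, z.2, b z.1 z.2, 1)
  have hnS : ∀ z : X × ℤ × X × Fin 3, z.2.2.2 ≠ 0 → u z ∉ S := fun z hz hS => hS ⟨z, hz, rfl⟩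
  have hp : Function.Injective p := by
    rintro ⟨a, i⟩ ⟨a', i'⟩ h
    simpa [p] using h
  have hq : Function.Injective q := by
    rintro ⟨a, i⟩ ⟨a', i'⟩ h
    simp only [q] at h
    split_ifs at h with h1 h2 h2
    · rw [h1, h2, β.injective (Subtype.ext h)]
    · exact absurd (h ▸ (β a).2) (hnS _ (by simp))
    · exact absurd (h ▸ (β a').2) (hnS _ (by simp))
    · have := hu h
      simp only [Prod.mk.injEq, Nat.cast_inj] at this
      rw [this.1, this.2.1]
  have hcompl : Cardinal.mk ((range p)ᶜ : Set (X × ℤ)) = Cardinal.mk ((range q)ᶜ : Set X) := by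
    have h1 : Cardinal.mk ((range p)ᶜ : Set (X × ℤ)) = Cardinal.mk X := by
      refine mk_eq_of_inj (Cardinal.eq.2 ⟨e0⟩).le (fun x => (x, -1))
        (fun a b hab => by simpa using hab) ?_
      rintro a ⟨⟨a', i⟩, h⟩
      simp only [p, Prod.mk.injEq] at h
      omega
    have h2 : Cardinal.mk ((range q)ᶜ : Set X) = Cardinal.mk X := by
      refine mk_eq_of_inj le_rfl (fun x => u (x, 0, x, 2))
        (fun a b hab => by simpa using hu hab) ?_
      rintro a ⟨⟨a', i⟩, h⟩
      simp only [q] at h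
      split_ifs at h with h1
      · exact absurd (h ▸ (β a').2) (hnS _ (by simp))
      · have := hu h
        simp at this
    rw [h1, h2]
  obtain ⟨e, he⟩ := exists_equiv_extend p q hp hq hcompl
  have he0 : ∀ t, e (t, 0) = β t := fun t => by simpa [p, q] using he (t, 0)
  have hepos : ∀ t (j : ℤ), 0 < j → e (t, j) ∉ Bad t := by
    intro t j hj
    have := he (t, j.toNat)
    simp only [p, q, Int.toNat_of_nonneg hj.le] at this
    rw [this, if_neg (by omega)]
    exact hb t j
  suffices hs : ∃ Φ : MulAut (FreeGroup X),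
      Φ * permAut (shift e 2) = φ * permAut (shift e 2) * Φ by
    obtain ⟨Φ, hΦ⟩ := hs
    have hμ := shift_mem e0 e N h0
    have : φ = (Φ * permAut (shift e 2) * Φ⁻¹) * (permAut (shift e 2))⁻¹ := by
      rw [hΦ]
      group
    rw [this]
    exact N.mul_mem (hN.conj_mem _ hμ _) (N.inv_mem hμ)
  refine exists_conj e φ ?_ (· < ·) wf.wf ?_
  · intro t j hj
    have : e (t, j) ∉ S := by
      intro hS
      obtain ⟨t', ht'⟩ := β.surjective ⟨_, hS⟩
      have h2 : e (t', 0) = e (t, j) := by rw [he0, ht']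
      have := e.injective h2
      simp only [Prod.mk.injEq] at this
      exact hj this.2.symm
    simp only [S, mem_compl_iff, not_not] at this
    obtain ⟨z, -, hz⟩ := this
    rw [← hz]
    exact hfix _
  · intro t
    rw [he0]
    refine Subgroup.closure_mono ?_ (mem_gen_supp _)
    rintro _ ⟨y, hy, rfl⟩
    obtain ⟨⟨t', j⟩, rfl⟩ := e.surjective y
    refine ⟨t', j, ?_, rfl⟩
    by_contra hcon
    push Not at hcon
    exact hepos t' j hcon.1 (mem_biUnion (mem_Iic.2 hcon.2) hy)

end Pool.Agent.Lib.MP_e3e9dd_al
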