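import Mathlib
import Pool.Agent.Lib.MP_e3e9dd_al.Free
import Pool.Agent.Lib.MP_e3e9dd_al.Stab

set_option autoImplicit false

/-! Two bases of a free group of infinite rank share many elements with a common third basis. -/

namespace Pool.Agent.Lib.MP_e3e9dd_al

open Cardinal Set

variable {X : Type}

theorem mem_map_gen (φ : MulAut (FreeGroup X)) (U : Set X) (g : FreeGroup X) :
    g ∈ (gen U).map φ.toMonoidHom ↔ φ⁻¹ g ∈ gen U := by
  constructor
  · rintro ⟨h, hh, rfl⟩
    simpa using hh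
  · intro h
    exact ⟨φ⁻¹ g, h, by simp⟩

theorem extend_basis (φ : MulAut (FreeGroup X)) {E : Set (FreeGroup X)} {U : Set X}
    (hE : IsFreeSet E) (hcl : Subgroup.closure E = (gen U).map φ.toMonoidHom)
    (L : Subgroup (FreeGroup X)) (hL : Subgroup.closure E ≤ L) :
    ∃ E', E ⊆ E' ∧ IsFreeSet E' ∧ Subgroup.closure E' = L ∧
      ∀ x, x ∉ U → φ (FreeGroup.of x) ∈ L → φ (FreeGroup.of x) ∈ E' := by
  obtain ⟨D, hD, hDL, hDx⟩ := schreier (L.comap φ.toMonoidHom)
  have hV : φ '' (FreeGroup.of '' U) ⊆ φ '' D := by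
    refine image_mono ?_
    rintro _ ⟨x, hx, rfl⟩
    refine hDx x (hL ?_)
    rw [hcl]
    exact ⟨_, of_mem_gen hx, rfl⟩
  have hcl' : Subgroup.closure E = Subgroup.closure (φ '' (FreeGroup.of '' U)) := by
    rw [hcl, gen, MonoidHom.map_closure]
    rfl
  refine ⟨E ∪ (φ '' D \ φ '' (FreeGroup.of '' U)), subset_union_left,
    hE.exchange (hD.image φ) hV hcl', ?_, ?_⟩
  · rw [closure_exchange hV hcl']
    have : Subgroup.closure (φ '' D) = (Subgroup.closure D).map φ.toMonoidHom := by
      rw [MonoidHom.map_closure]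
      rfl
    rw [this, hDL, Subgroup.map_comap_eq_self_of_surjective φ.surjective]
  · intro x hx hxL
    refine Or.inr ⟨⟨_, hDx x hxL, rfl⟩, ?_⟩
    rintro ⟨_, ⟨y, hy, rfl⟩, h⟩
    rw [FreeGroup.of_injective (φ.injective h)] at hy
    exact hx hy

theorem map_one_gen (U : Set X) :
    (gen U).map (1 : MulAut (FreeGroup X)).toMonoidHom = gen U := by
  ext g
  rw [mem_map_gen]
  simp

/-- What one step of the construction achieves. -/
structure StepSpec (φ : MulAut (FreeGroup X)) (c : Cardinal.{0}) (x : X)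
    (E : Set (FreeGroup X)) (U : Set X) (p : Set (FreeGroup X) × Set X × X × X) : Prop where
  free : IsFreeSet p.1
  cl : Subgroup.closure p.1 = gen p.2.1
  small : Cardinal.mk p.2.1 < c
  subE : E ⊆ p.1
  subU : U ⊆ p.2.1
  memx : x ∈ p.2.1
  mema : p.2.2.1 ∈ p.2.1
  memb : p.2.2.2 ∈ p.2.1
  nota : p.2.2.1 ∉ U
  notb : p.2.2.2 ∉ U
  neab : p.2.2.1 ≠ p.2.2.2
  ofa : FreeGroup.of p.2.2.1 ∈ p.1
  ofb : φ (FreeGroup.of p.2.2.2) ∈ p.1
  newb : φ (FreeGroup.of p.2.2.2) ∉ gen U
  neof : FreeGroup.of p.2.2.1 ≠ φ (FreeGroup.of p.2.2.2)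

theorem exists_step (φ : MulAut (FreeGroup X)) (c : Cardinal.{0}) (hc : c.IsRegular)
    (hcX : c ≤ Cardinal.mk X) (x : X) (E : Set (FreeGroup X)) (U : Set X) (hE : IsFreeSet E)
    (hcl : Subgroup.closure E = gen U) (hU : Cardinal.mk U < c) :
    ∃ p, StepSpec φ c x E U p := by
  let U1 : Set X := ⋃ u ∈ U, supp (φ⁻¹ (FreeGroup.of u))
  have hU1 : Cardinal.mk U1 < c :=
    small_biUnion hc hU _ (fun i _ => small_of_finite hc (supp_finite _))
  have h1 : gen U ≤ (gen U1).map φ.toMonoidHom := by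
    refine (Subgroup.closure_le _).2 ?_
    rintro _ ⟨u, hu, rfl⟩
    rw [SetLike.mem_coe, mem_map_gen]
    exact gen_mono (subset_biUnion_of_mem (u := fun u => supp (φ⁻¹ (FreeGroup.of u))) hu)
      (mem_gen_supp _)
  obtain ⟨E1, hE1, hE1f, hE1c, -⟩ := extend_basis 1 hE (by rw [map_one_gen, hcl])
    ((gen U1).map φ.toMonoidHom) (hcl ▸ h1)
  obtain ⟨b, hb⟩ := exists_not_mem_of_small ((small_union hc hU hU1).trans_le hcX) id
    Function.injective_id
  simp only [id, mem_union, not_or] at hb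
  let U2 : Set X := (⋃ u ∈ U1 ∪ {b}, supp (φ (FreeGroup.of u))) ∪ (U ∪ {x, b})
  have hU2 : Cardinal.mk U2 < c :=
    small_union hc (small_biUnion hc (small_union hc hU1 (small_of_finite hc (finite_singleton b)))
      _ (fun i _ => small_of_finite hc (supp_finite _)))
      (small_union hc hU (small_of_finite hc (toFinite _)))
  have h2 : ∀ u ∈ U1 ∪ {b}, φ (FreeGroup.of u) ∈ gen U2 := fun u hu =>
    gen_mono ((subset_biUnion_of_mem (u := fun u => supp (φ (FreeGroup.of u))) hu).trans
      subset_union_left) (mem_gen_supp _)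
  have h3 : (gen U1).map φ.toMonoidHom ≤ gen U2 := by
    rw [Subgroup.map_le_iff_le_comap]
    refine (Subgroup.closure_le _).2 ?_
    rintro _ ⟨u, hu, rfl⟩
    exact h2 u (Or.inl hu)
  obtain ⟨E2, hE2, hE2f, hE2c, hE2x⟩ := extend_basis φ hE1f hE1c (gen U2) (hE1c ▸ h3)
  obtain ⟨a, ha⟩ := exists_not_mem_of_small (hU2.trans_le hcX) id Function.injective_id
  simp only [id] at ha
  obtain ⟨E3, hE3, hE3f, hE3c, hE3x⟩ := extend_basis 1 hE2f (by rw [map_one_gen, hE2c])
    (gen (U2 ∪ {a})) (hE2c ▸ gen_mono subset_union_left)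
  have hbU2 : b ∈ U2 := Or.inr (Or.inr (by simp))
  refine ⟨(E3, U2 ∪ {a}, a, b), hE3f, hE3c,
    small_union hc hU2 (small_of_finite hc (finite_singleton a)), (hE1.trans hE2).trans hE3,
    fun u hu => Or.inl (Or.inr (Or.inl hu)), Or.inl (Or.inr (Or.inr (by simp))), Or.inr rfl,
    Or.inl hbU2, fun h => ha (Or.inr (Or.inl h)), hb.1, fun h => ha ((show a = b from h) ▸ hbU2), ?_, ?_, ?_, ?_⟩
  · exact hE3x a ha (of_mem_gen (Or.inr rfl))
  · exact hE3 (hE2x b hb.2 (h2 b (Or.inr rfl)))
  · intro h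
    have := h1 h
    rw [mem_map_gen] at this
    exact hb.2 (mem_of_of_mem_gen (by simpa using this))
  · intro h
    exact ha (mem_of_of_mem_gen (h ▸ h2 b (Or.inr rfl)))

theorem gen_iUnion {ι : Type} (U : ι → Set X) : gen (⋃ i, U i) = ⨆ i, gen (U i) := by
  simp only [gen, image_iUnion, Subgroup.closure_iUnion]

theorem exists_common [Infinite X] (φ : MulAut (FreeGroup X)) :
    ∃ (D : Set (FreeGroup X)) (a b : X → X), IsFreeSet D ∧ Subgroup.closure D = ⊤ ∧
      Function.Injective a ∧ Function.Injective b ∧ (∀ x y, a x ≠ b y) ∧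
      (∀ x, FreeGroup.of (a x) ∈ D) ∧ (∀ x, φ (FreeGroup.of (b x)) ∈ D) ∧
      ∀ x y, FreeGroup.of (a x) ≠ φ (FreeGroup.of (b y)) := by
  classical
  obtain ⟨lo, wf, c, hreg, hlt, hle, hmono⟩ := exists_order X
  have hstep : ∀ (x : X) (E : Set (FreeGroup X)) (U : Set X),
      ∃ p : Set (FreeGroup X) × Set X × X × X,
        IsFreeSet E → Subgroup.closure E = gen U → Cardinal.mk U < c x →
          StepSpec φ (c x) x E U p := by
    intro x E U
    by_cases h : IsFreeSet E ∧ Subgroup.closure E = gen U ∧ Cardinal.mk U < c x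
    · obtain ⟨p, hp⟩ := exists_step φ (c x) (hreg x) (hle x) x E U h.1 h.2.1 h.2.2
      exact ⟨p, fun _ _ _ => hp⟩
    · exact ⟨(E, U, x, x), fun h1 h2 h3 => absurd ⟨h1, h2, h3⟩ h⟩
  choose step hstep using hstep
  let St : X → Set (FreeGroup X) × Set X × X × X := wf.wf.fix (fun x ih =>
    step x (⋃ y : Iio x, (ih y y.2).1) (⋃ y : Iio x, (ih y y.2).2.1))
  have hSt : ∀ x, St x = step x (⋃ y : Iio x, (St y).1) (⋃ y : Iio x, (St y).2.1) := by
    intro x
    simp only [St]
    rw [WellFounded.fix_eq]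
  have hspec : ∀ x, StepSpec φ (c x) x (⋃ y : Iio x, (St y).1) (⋃ y : Iio x, (St y).2.1)
      (St x) := by
    intro x
    induction x using wf.wf.induction with
    | _ x ih =>
      rw [hSt x]
      refine hstep x _ _ ?_ ?_ ?_
      · refine isFreeSet_iUnion _ ?_ (fun y => (ih y y.2).free)
        refine Monotone.directed_le (f := fun y : Iio x => (St y).1) ?_
        intro y z hyz
        rcases hyz.lt_or_eq with h | h
        · exact (subset_iUnion (fun w : Iio (z : X) => (St w).1) ⟨y, h⟩).trans (ih z z.2).subE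
        · rw [h]
      · rw [Subgroup.closure_iUnion, gen_iUnion]
        exact iSup_congr (fun y => (ih y y.2).cl)
      · exact (card_iUnion_lt_iff_forall_of_isRegular (hreg x) (hlt x)).2
          (fun y => (ih y y.2).small.trans_le (hmono (le_of_lt y.2)))
  have hEm : ∀ y z, y < z → (St y).1 ⊆ (St z).1 := fun y z h =>
    (subset_iUnion (fun w : Iio z => (St w).1) ⟨y, h⟩).trans (hspec z).subE
  have hUm : ∀ y z, y < z → (St y).2.1 ⊆ ⋃ w : Iio z, (St w).2.1 := fun y z h =>
    subset_iUnion (fun w : Iio z => (St w).2.1) ⟨y, h⟩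
  refine ⟨⋃ x, (St x).1, fun x => (St x).2.2.1, fun x => (St x).2.2.2, ?_, ?_, ?_, ?_, ?_, ?_,
    ?_, ?_⟩
  · refine isFreeSet_iUnion _ ?_ (fun y => (hspec y).free)
    refine Monotone.directed_le (f := fun y : X => (St y).1) ?_
    intro y z hyz
    rcases hyz.lt_or_eq with h | h
    · exact hEm y z h
    · rw [h]
  · rw [Subgroup.closure_iUnion, iSup_congr (fun y => (hspec y).cl), ← gen_iUnion, ← gen_univ]
    congr 1
    exact eq_univ_of_forall (fun x => mem_iUnion.2 ⟨x, (hspec x).memx⟩)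
  · intro y z h
    simp only at h
    rcases lt_trichotomy y z with h1 | h1 | h1
    · exact absurd (hUm y z h1 (hspec y).mema) (h ▸ (hspec z).nota)
    · exact h1
    · exact absurd (hUm z y h1 (hspec z).mema) (h ▸ (hspec y).nota)
  · intro y z h
    simp only at h
    rcases lt_trichotomy y z with h1 | h1 | h1
    · exact absurd (hUm y z h1 (hspec y).memb) (h ▸ (hspec z).notb)
    · exact h1
    · exact absurd (hUm z y h1 (hspec z).memb) (h ▸ (hspec y).notb)
  · intro y z h
    simp only at h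
    rcases lt_trichotomy y z with h1 | h1 | h1
    · exact absurd (hUm y z h1 (hspec y).mema) (h ▸ (hspec z).notb)
    · subst h1
      exact (hspec y).neab h
    · exact absurd (hUm z y h1 (hspec z).memb) (h ▸ (hspec y).nota)
  · exact fun x => mem_iUnion.2 ⟨x, (hspec x).ofa⟩
  · exact fun x => mem_iUnion.2 ⟨x, (hspec x).ofb⟩
  · intro y z h
    rcases lt_trichotomy y z with h1 | h1 | h1
    · exact (hspec z).newb (h ▸ of_mem_gen (hUm y z h1 (hspec y).mema))
    · subst h1
      exact (hspec y).neof h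
    · refine (hspec y).nota (hUm z y h1 (mem_of_of_mem_gen ?_))
      rw [h, ← (hspec z).cl]
      exact Subgroup.subset_closure (hspec z).ofb

theorem exists_factor [Infinite X] (φ : MulAut (FreeGroup X)) :
    ∃ (δ : MulAut (FreeGroup X)) (a b : X → X), Function.Injective a ∧ Function.Injective b ∧
      (∀ x, δ (FreeGroup.of (a x)) = FreeGroup.of (a x)) ∧
      ∀ x, δ (FreeGroup.of (b x)) = φ (FreeGroup.of (b x)) := by
  obtain ⟨D, a, b, hD, hcl, ha, hb, hab, haD, hbD, hne⟩ := exists_common φ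
  have hcard : Cardinal.mk (X ⊕ X) = Cardinal.mk X := by
    simp [add_eq_self (aleph0_le_mk X)]
  obtain ⟨s⟩ := Cardinal.eq.1 hcard
  let i : X → X := fun x => s (Sum.inl x)
  let k : X → X := fun x => s (Sum.inr x)
  have hi : Function.Injective i := s.injective.comp Sum.inl_injective
  have hk : Function.Injective k := s.injective.comp Sum.inr_injective
  have hik : ∀ x y, i x ≠ k y := fun x y h => by simpa using s.injective h
  let p : X ⊕ X → X := Sum.elim (fun x => a (i x)) (fun x => b (i x))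
  let q : X ⊕ X → D := Sum.elim (fun x => ⟨_, haD (i x)⟩) (fun x => ⟨_, hbD (i x)⟩)
  have hp : Function.Injective p :=
    Function.Injective.sumElim (ha.comp hi) (hb.comp hi) (fun x y => hab _ _)
  have hq : Function.Injective q := by
    refine Function.Injective.sumElim ?_ ?_ ?_
    · intro x y h
      exact hi (ha (FreeGroup.of_injective (congrArg Subtype.val h)))
    · intro x y h
      exact hi (hb (FreeGroup.of_injective (φ.injective (congrArg Subtype.val h))))
    · intro x y h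
      exact hne _ _ (congrArg Subtype.val h)
  have hDX : Cardinal.mk D ≤ Cardinal.mk X := by
    refine (mk_set_le D).trans ?_
    rw [mk_freeGroup, max_eq_left (aleph0_le_mk X)]
  have h1 : Cardinal.mk ((range p)ᶜ : Set X) = Cardinal.mk X := by
    refine mk_eq_of_inj le_rfl (fun x => a (k x)) (ha.comp hk) ?_
    rintro x ⟨y | y, h⟩
    · exact hik _ _ (ha h)
    · exact hab _ _ h.symm
  have h2 : Cardinal.mk ((range q)ᶜ : Set D) = Cardinal.mk X := by
    refine mk_eq_of_inj hDX (fun x => ⟨_, haD (k x)⟩) ?_ ?_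
    · intro x y h
      exact hk (ha (FreeGroup.of_injective (congrArg Subtype.val h)))
    · rintro x ⟨y | y, h⟩
      · exact hik _ _ (ha (FreeGroup.of_injective (congrArg Subtype.val h)))
      · exact hne _ _ (congrArg Subtype.val h).symm
  obtain ⟨γ, hγ⟩ := exists_equiv_extend p q hp hq (h1.trans h2.symm)
  have hsurj : Function.Surjective (FreeGroup.lift (fun e : D => (e : FreeGroup X))) := by
    rw [FreeGroup.lift_surjective_iff_closure_range_eq_top]
    simpa using hcl
  let δ : MulAut (FreeGroup X) := (FreeGroup.freeGroupCongr γ).trans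
    (MulEquiv.ofBijective (FreeGroup.lift (fun e : D => (e : FreeGroup X)))
      ⟨hD.lift_injective, hsurj⟩)
  have hδ : ∀ x, δ (FreeGroup.of x) = (γ x : FreeGroup X) := by
    intro x
    simp [δ]
  refine ⟨δ, fun x => a (i x), fun x => b (i x), ha.comp hi, hb.comp hi, fun x => ?_, fun x => ?_⟩
  · rw [hδ]
    exact congrArg Subtype.val (hγ (Sum.inl x))
  · rw [hδ]
    exact congrArg Subtype.val (hγ (Sum.inr x))

theorem main (X : Type) [Infinite X] :
    ∃ σ : MulAut (FreeGroup X), σ ≠ 1 ∧ σ * σ = 1 ∧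
      Subgroup.normalClosure ({σ} : Set (MulAut (FreeGroup X))) = ⊤ := by
  have hcard : Cardinal.mk (X × ℤ) = Cardinal.mk X := by
    simp [mul_eq_left (aleph0_le_mk X) (aleph0_le_mk X) aleph0_ne_zero]
  obtain ⟨e0⟩ := Cardinal.eq.1 hcard
  refine ⟨permAut (flip e0), ?_, by rw [← map_mul, flip_mul_flip, map_one], ?_⟩
  · intro h
    obtain ⟨x⟩ : Nonempty X := inferInstance
    have h1 := permAut_of (flip e0) (e0 (x, 1))
    rw [h, flip_apply] at h1
    have h2 := e0.injective (FreeGroup.of_injective h1)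
    simp at h2
  · rw [eq_top_iff]
    intro φ _
    set N := Subgroup.normalClosure ({permAut (flip e0)} : Set (MulAut (FreeGroup X)))
    have h0 : permAut (flip e0) ∈ N := Subgroup.subset_normalClosure rfl
    obtain ⟨δ, a, b, ha, hb, hδa, hδb⟩ := exists_factor φ
    have h1 : δ ∈ N := stab_mem e0 N h0 δ a ha hδa
    have h2 : φ⁻¹ * δ ∈ N := stab_mem e0 N h0 _ b hb (fun x => by
      rw [MulAut.mul_apply, hδb, MulAut.inv_apply_self])
    have : φ = δ * (φ⁻¹ * δ)⁻¹ := by group
    rw [this]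
    exact N.mul_mem h1 (N.inv_mem h2)

end Pool.Agent.Lib.MP_e3e9dd_al
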